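import Pool.Agent.Helper28.TH.StN

/-!
# Project TH, low levels, module MF-H: a cusp form of level two from its coefficients
-/

set_option autoImplicit false

open Pool.Agent.Helper28.TH Pool.Agent.Helper28.LV Pool.Agent.Helper28.WK Pool.Agent.Helper14.WK
open Pool.Agent.Helper14.CV (G0)
open UpperHalfPlane CongruenceSubgroup Matrix.SpecialLinearGroup ModularGroup Filter Topology
open scoped MatrixGroups ModularForm Manifold

namespace Pool.Agent.Helper29.THN

/-- Polynomial growth from the summability. -/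
private theorem growth {n : ℕ} {b : ℕ → ℂ} (h0 : b 0 = 0)
    (hs : Summable (fun M : ℕ => ‖b M‖ / (M : ℝ) ^ n)) :
    ∃ C : ℝ, 0 ≤ C ∧ ∀ M : ℕ, ‖b M‖ ≤ C * (M : ℝ) ^ n := by
  refine ⟨∑' M : ℕ, ‖b M‖ / (M : ℝ) ^ n, tsum_nonneg fun M => by positivity, fun M => ?_⟩
  rcases Nat.eq_zero_or_pos M with hM | hM
  · subst hM
    rw [h0, norm_zero]
    exact mul_nonneg (tsum_nonneg fun M => by positivity) (by positivity)
  · have h1 := hs.le_tsum M (fun j _ => by positivity)
    have h2 : (0 : ℝ) < (M : ℝ) ^ n := by positivity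
    rwa [div_le_iff₀ h2] at h1

private theorem summ {n : ℕ} {b : ℕ → ℂ} {C : ℝ} (hC : ∀ M : ℕ, ‖b M‖ ≤ C * (M : ℝ) ^ n)
    {r : ℝ} (hr0 : 0 ≤ r) (hr : r < 1) : Summable (fun M : ℕ => ‖b M‖ * r ^ M) := by
  have h1 : Summable (fun M : ℕ => (M : ℝ) ^ n * r ^ M) :=
    summable_pow_mul_geometric_of_norm_lt_one n (by rwa [Real.norm_eq_abs, abs_of_nonneg hr0])
  refine Summable.of_nonneg_of_le (fun M => by positivity) (fun M => ?_) (h1.mul_left C)
  have := mul_le_mul_of_nonneg_right (hC M) (pow_nonneg hr0 M)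
  linarith [mul_assoc C ((M : ℝ) ^ n) (r ^ M)]

private theorem exp_pow (M : ℕ) (z : ℂ) : Complex.exp (2 * Real.pi * Complex.I * M * z) =
    Complex.exp (2 * Real.pi * Complex.I * z) ^ M := by
  rw [← Complex.exp_nat_mul]
  congr 1
  ring

private theorem norm_q (z : ℂ) : ‖Complex.exp (2 * Real.pi * Complex.I * z)‖ =
    Real.exp (-(2 * Real.pi * z.im)) := by
  rw [Complex.norm_exp]
  congr 1
  have : (2 * Real.pi * Complex.I * z : ℂ) = ((2 * Real.pi : ℝ) : ℂ) * (Complex.I * z) := by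
    push_cast
    ring
  rw [this, Complex.re_ofReal_mul, Complex.I_mul_re]
  ring

private theorem norm_q_lt {z : ℂ} (hz : 0 < z.im) :
    ‖Complex.exp (2 * Real.pi * Complex.I * z)‖ < 1 := by
  rw [norm_q, Real.exp_lt_one_iff]
  have := Real.pi_pos
  have : 0 < 2 * Real.pi * z.im := by positivity
  linarith

private theorem hasSum_FF {n : ℕ} {b : ℕ → ℂ} {C : ℝ} (hC : ∀ M : ℕ, ‖b M‖ ≤ C * (M : ℝ) ^ n)
    {z : ℂ} (hz : 0 < z.im) :
    HasSum (fun M : ℕ => b M * Complex.exp (2 * Real.pi * Complex.I * M * z)) (FF b z) := by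
  refine Summable.hasSum ?_
  refine Summable.of_norm ?_
  refine (summ hC (norm_nonneg _) (norm_q_lt hz)).congr fun M => ?_
  rw [norm_mul, exp_pow, norm_pow]

private theorem diff_FF {n : ℕ} {b : ℕ → ℂ} {C : ℝ} (hC : ∀ M : ℕ, ‖b M‖ ≤ C * (M : ℝ) ^ n) :
    DifferentiableOn ℂ (FF b) {z : ℂ | 0 < z.im} := by
  intro z hz
  have hz' : 0 < z.im := hz
  have hopen : IsOpen {w : ℂ | z.im / 2 < w.im} := isOpen_lt continuous_const Complex.continuous_im
  have hmem : z ∈ {w : ℂ | z.im / 2 < w.im} := by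
    change z.im / 2 < z.im
    linarith
  have hr : Real.exp (-(2 * Real.pi * (z.im / 2))) < 1 := by
    rw [Real.exp_lt_one_iff]
    have := Real.pi_pos
    have : 0 < 2 * Real.pi * (z.im / 2) := by positivity
    linarith
  have h1 : DifferentiableOn ℂ (fun w : ℂ => ∑' M : ℕ,
      b M * Complex.exp (2 * Real.pi * Complex.I * M * w)) {w : ℂ | z.im / 2 < w.im} := by
    refine Complex.differentiableOn_tsum_of_summable_norm (summ hC (Real.exp_pos _).le hr) (fun M => ?_)
      hopen (fun M w hw => ?_)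
    · exact ((Complex.differentiable_exp.comp
        ((differentiable_const _).mul differentiable_id)).const_mul _).differentiableOn
    · rw [norm_mul, exp_pow, norm_pow, norm_q]
      refine mul_le_mul_of_nonneg_left (pow_le_pow_left₀ (Real.exp_pos _).le ?_ M) (norm_nonneg _)
      rw [Real.exp_le_exp]
      have hw' : z.im / 2 < w.im := hw
      have := Real.pi_pos
      have := mul_le_mul_of_nonneg_left hw'.le (by positivity : (0 : ℝ) ≤ 2 * Real.pi)
      linarith
  exact ((h1 z hmem).differentiableAt (hopen.mem_nhds hmem)).differentiableWithinAt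

private theorem qp (τ : ℍ) (M : ℕ) : Function.Periodic.qParam 1 (τ : ℂ) ^ M =
    Complex.exp (2 * Real.pi * Complex.I * M * τ) := by
  rw [exp_pow]
  congr 1
  unfold Function.Periodic.qParam
  simp

/-- The matrices `(1 0; 2 1)` and `(1 0; -2 1)`. -/
private def VV : SL(2, ℤ) := ⟨!![1, 0; 2, 1], by simp [Matrix.det_fin_two_of]⟩

private def VI : SL(2, ℤ) := ⟨!![1, 0; -2, 1], by simp [Matrix.det_fin_two_of]⟩

private theorem VI_mul : VI * VV = 1 := by
  ext i j
  fin_cases i <;> fin_cases j <;>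
    simp [VI, VV, Matrix.mul_apply, Fin.sum_univ_two]

private theorem det_eq (γ : SL(2, ℤ)) : γ 0 0 * γ 1 1 - γ 0 1 * γ 1 0 = 1 := by
  have h := γ.det_coe
  rwa [Matrix.det_fin_two] at h

private theorem T00 (j : ℤ) : (T ^ j) 0 0 = 1 := by
  have h := coe_T_zpow j
  have h1 : (T ^ j) 0 0 = (T ^ j).1 0 0 := rfl
  rw [h1, h]
  rfl

private theorem T01 (j : ℤ) : (T ^ j) 0 1 = j := by
  have h := coe_T_zpow j
  have h1 : (T ^ j) 0 1 = (T ^ j).1 0 1 := rfl
  rw [h1, h]
  rfl

private theorem T10 (j : ℤ) : (T ^ j) 1 0 = 0 := by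
  have h := coe_T_zpow j
  have h1 : (T ^ j) 1 0 = (T ^ j).1 1 0 := rfl
  rw [h1, h]
  rfl

private theorem T11 (j : ℤ) : (T ^ j) 1 1 = 1 := by
  have h := coe_T_zpow j
  have h1 : (T ^ j) 1 1 = (T ^ j).1 1 1 := rfl
  rw [h1, h]
  rfl

private theorem mul10 (x y : SL(2, ℤ)) : (x * y) 1 0 = x 1 0 * y 0 0 + x 1 1 * y 1 0 := by
  simp only [Matrix.SpecialLinearGroup.coe_mul, Matrix.mul_apply, Fin.sum_univ_two]

private theorem mul11 (x y : SL(2, ℤ)) : (x * y) 1 1 = x 1 0 * y 0 1 + x 1 1 * y 1 1 := by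
  simp only [Matrix.SpecialLinearGroup.coe_mul, Matrix.mul_apply, Fin.sum_univ_two]

/-- Generators of `Γ₀(2)`. -/
private theorem gen {H : Subgroup SL(2, ℤ)} (hT : T ∈ H) (hV : VV ∈ H)
    (hneg : (-1 : SL(2, ℤ)) ∈ H) (n : ℕ) :
    ∀ γ : SL(2, ℤ), (γ 1 0).natAbs = n → (2 : ℤ) ∣ γ 1 0 → γ ∈ H := by
  have hVI : VI ∈ H := by
    have h1 : VI = VV⁻¹ := eq_inv_of_mul_eq_one_left VI_mul
    rw [h1]
    exact H.inv_mem hV
  induction n using Nat.strong_induction_on with
  | _ n ih =>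
    intro γ hn h2
    have hdet := det_eq γ
    by_cases hc : γ 1 0 = 0
    · rw [hc, mul_zero, sub_zero] at hdet
      rcases Int.eq_one_or_neg_one_of_mul_eq_one' hdet with (⟨ha, hd⟩ | ⟨ha, hd⟩)
      · have h3 : γ = T ^ (γ 0 1) := by
          ext i j
          fin_cases i <;> fin_cases j
          · exact ha.trans (T00 _).symm
          · exact (T01 _).symm
          · exact hc.trans (T10 _).symm
          · exact hd.trans (T11 _).symm
        rw [h3]
        exact H.zpow_mem hT _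
      · have h3 : γ = -1 * T ^ (-(γ 0 1)) := by
          rw [neg_one_mul]
          ext i j
          fin_cases i <;> fin_cases j
          · show γ 0 0 = -((T ^ (-(γ 0 1))) 0 0)
            rw [T00, ha]
          · show γ 0 1 = -((T ^ (-(γ 0 1))) 0 1)
            rw [T01, neg_neg]
          · show γ 1 0 = -((T ^ (-(γ 0 1))) 1 0)
            rw [T10, hc, neg_zero]
          · show γ 1 1 = -((T ^ (-(γ 0 1))) 1 1)
            rw [T11, hd]
        rw [h3]
        exact H.mul_mem hneg (H.zpow_mem hT _)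
    · obtain ⟨c, hcc⟩ : ∃ c : ℤ, c = γ 1 0 := ⟨_, rfl⟩
      obtain ⟨d, hdd⟩ : ∃ d : ℤ, d = γ 1 1 := ⟨_, rfl⟩
      obtain ⟨r, hr⟩ : ∃ r : ℤ, r = d % c := ⟨_, rfl⟩
      have hc0 : c ≠ 0 := by rw [hcc]; exact hc
      have hr0 : 0 ≤ r := by rw [hr]; exact Int.emod_nonneg _ hc0
      have hr1 : r < |c| := by rw [hr]; exact Int.emod_lt_abs _ hc0
      have hrd : d + c * (-(d / c)) = r := by
        have := Int.emod_add_mul_ediv d c
        rw [hr]
        linarith
      have hrne : r ≠ 0 := by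
        intro h0
        have h3 : (2 : ℤ) ∣ d := by
          have h4 : d = c * (d / c) := by
            rw [h0] at hrd
            linarith
          rw [h4, hcc]
          exact h2.mul_right _
        have h5 : (2 : ℤ) ∣ 1 := by
          rw [← hdet, ← hdd]
          exact dvd_sub (h3.mul_left _) (h2.mul_left _)
        norm_num at h5
      obtain ⟨γ₁, hγ₁⟩ : ∃ γ₁ : SL(2, ℤ), γ₁ = γ * T ^ (-(d / c)) := ⟨_, rfl⟩
      have e1 : γ₁ 1 0 = c := by
        rw [hγ₁, mul10, T00, T10, mul_one, mul_zero, add_zero, hcc]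
      have e2 : γ₁ 1 1 = r := by
        rw [hγ₁, mul11, T01, T11, mul_one, ← hcc, ← hdd, ← hrd]
        ring
      have key : γ₁ ∈ H → γ ∈ H := by
        intro h3
        have h4 : γ = γ₁ * (T ^ (-(d / c)))⁻¹ := by
          rw [hγ₁, mul_inv_cancel_right]
        rw [h4]
        exact H.mul_mem h3 (H.inv_mem (H.zpow_mem hT _))
      refine key ?_
      obtain ⟨y, hy⟩ := h2
      rw [← hcc] at hy hn
      rcases lt_or_gt_of_ne hc0 with hneg' | hpos
      · -- `c < 0`
        have e3 : (γ₁ * VV) 1 0 = c + 2 * r := by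
          rw [mul10, e1, e2]
          simp [VV]
          ring
        have h4 : γ₁ * VV ∈ H := by
          refine ih _ ?_ (γ₁ * VV) rfl ?_
          · rw [e3, ← hn]
            rw [abs_of_neg hneg'] at hr1
            omega
          · rw [e3, hy]
            exact ⟨y + r, by ring⟩
        have h5 : γ₁ = (γ₁ * VV) * VV⁻¹ := by rw [mul_inv_cancel_right]
        rw [h5]
        exact H.mul_mem h4 (H.inv_mem hV)
      · have e3 : (γ₁ * VI) 1 0 = c - 2 * r := by
          rw [mul10, e1, e2]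
          simp [VI]
          ring
        have h4 : γ₁ * VI ∈ H := by
          refine ih _ ?_ (γ₁ * VI) rfl ?_
          · rw [e3, ← hn]
            rw [abs_of_pos hpos] at hr1
            omega
          · rw [e3, hy]
            exact ⟨y - r, by ring⟩
        have h5 : γ₁ = (γ₁ * VI) * VI⁻¹ := by rw [mul_inv_cancel_right]
        rw [h5]
        exact H.mul_mem h4 (H.inv_mem hVI)

/-- The stabiliser of a function. -/
private def stb (k : ℤ) (f : ℍ → ℂ) : Subgroup SL(2, ℤ) where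
  carrier := {γ | f ∣[k] γ = f}
  mul_mem' := by
    intro x y hx hy
    show f ∣[k] (x * y) = f
    rw [SlashAction.slash_mul, show f ∣[k] x = f from hx, show f ∣[k] y = f from hy]
  one_mem' := by
    show f ∣[k] (1 : SL(2, ℤ)) = f
    rw [SlashAction.slash_one]
  inv_mem' := by
    intro x hx
    show f ∣[k] x⁻¹ = f
    have h1 : f ∣[k] (x * x⁻¹) = f := by
      rw [mul_inv_cancel, SlashAction.slash_one]
    rwa [SlashAction.slash_mul, show f ∣[k] x = f from hx] at h1

private theorem FF_add_one (b : ℕ → ℂ) (z : ℂ) : FF b (z + 1) = FF b z := by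
  unfold FF
  refine tsum_congr fun M => ?_
  congr 1
  rw [mul_add, Complex.exp_add, mul_one]
  have h3 : Complex.exp (2 * Real.pi * Complex.I * M) = 1 := by
    rw [Complex.exp_eq_one_iff]
    exact ⟨M, by push_cast; ring⟩
  rw [h3, mul_one]

/-- Module MF-H. -/
theorem hMF : ZMF := by
  intro a b hb0 hs hS
  obtain ⟨C, hC0, hC⟩ := growth hb0 hs
  set f : ℍ → ℂ := fun τ => FF b τ with hf
  have hsum : ∀ τ : ℍ, HasSum (fun m : ℕ => b m • Function.Periodic.qParam 1 (τ : ℂ) ^ m) (f τ) := by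
    intro τ
    have h1 := hasSum_FF hC τ.im_pos
    have h2 : (fun M : ℕ => b M * Complex.exp (2 * Real.pi * Complex.I * M * (τ : ℂ))) =
        fun m : ℕ => b m • Function.Periodic.qParam 1 (τ : ℂ) ^ m := by
      funext m
      rw [qp, smul_eq_mul]
    rw [h2] at h1
    exact h1
  obtain ⟨k, hk⟩ : ∃ k : ℤ, k = 2 * (a : ℤ) + 2 := ⟨_, rfl⟩
  have hpk : ∀ z : ℂ, z ^ k = z ^ (2 * a + 2) := by
    intro z
    rw [hk, ← zpow_natCast]
    congr 1
  have hT : f ∣[k] T = f := by
    funext τ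
    rw [ModularForm.SL_slash_apply]
    have h1 : UpperHalfPlane.denom T τ = 1 := by
      rw [ModularGroup.denom_apply]
      simp [T]
    have h2 : ((T • τ : ℍ) : ℂ) = (τ : ℂ) + 1 := by
      rw [modular_T_smul, coe_vadd]
      push_cast
      ring
    rw [h1, one_zpow, mul_one]
    simp only [hf]
    rw [h2, FF_add_one]
  have hneg : f ∣[k] (-1 : SL(2, ℤ)) = f := by
    funext τ
    rw [ModularForm.SL_slash_apply, SL_neg_smul, one_smul]
    have h1 : UpperHalfPlane.denom (-1 : SL(2, ℤ)) τ = -1 := by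
      rw [ModularGroup.denom_apply]
      simp
    rw [h1, zpow_neg, hpk]
    have h2 : (-1 : ℂ) ^ (2 * a + 2) = 1 := by
      rw [show 2 * a + 2 = 2 * (a + 1) by ring, pow_mul]
      norm_num
    rw [h2, inv_one, mul_one]
  have hVs : f ∣[k] VV = f := by
    funext τ
    rw [ModularForm.SL_slash_apply]
    have hz : (τ : ℂ) ≠ 0 := τ.ne_zero
    have hd1 : UpperHalfPlane.denom VV τ = 2 * (τ : ℂ) + 1 := by
      rw [ModularGroup.denom_apply]
      simp [VV]
    have hd0 : 2 * (τ : ℂ) + 1 ≠ 0 := by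
      rw [← hd1]
      exact UpperHalfPlane.denom_ne_zero _ τ
    obtain ⟨w, hw⟩ : ∃ w : ℂ, w = -1 / (2 * (τ : ℂ)) := ⟨_, rfl⟩
    have hwim : 0 < w.im := by
      have h1 : w = -((τ : ℂ)⁻¹) / 2 := by
        rw [hw]
        field_simp
      rw [h1, Complex.div_ofNat_im]
      have h2 := τ.im_inv_neg_coe_pos
      rw [inv_neg] at h2
      have h3 : (-((τ : ℂ)⁻¹)).im = (-(τ : ℂ)⁻¹).im := rfl
      linarith
    have hw1 : 0 < (w - 1).im := by
      rw [Complex.sub_im, Complex.one_im, sub_zero]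
      exact hwim
    have h2 := hS (w - 1) hw1
    have h3 : FF b (w - 1) = FF b w := by
      have := FF_add_one b (w - 1)
      rw [sub_add_cancel] at this
      exact this.symm
    have h4 := hS τ τ.im_pos
    rw [← hw] at h4
    rw [h3, h4] at h2
    have h5 : ((VV • τ : ℍ) : ℂ) = -1 / (2 * (w - 1)) := by
      rw [coe_specialLinearGroup_apply]
      simp only [algebraMap_int_eq, eq_intCast, Complex.ofReal_intCast]
      have g00 : VV 0 0 = 1 := rfl
      have g01 : VV 0 1 = 0 := rfl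
      have g10 : VV 1 0 = 2 := rfl
      have g11 : VV 1 1 = 1 := rfl
      rw [g00, g01, g10, g11, hw]
      push_cast
      have h6 : -1 / (2 * (τ : ℂ)) - 1 = -(2 * (τ : ℂ) + 1) / (2 * (τ : ℂ)) := by
        field_simp
        ring
      rw [h6]
      field_simp
      ring
    simp only [hf]
    rw [h5, h2, hd1, zpow_neg, hpk]
    have h7 : (w - 1) * (2 * (τ : ℂ)) = -(2 * (τ : ℂ) + 1) := by
      rw [hw]
      field_simp
      ring
    have h8 : (2 * (τ : ℂ) + 1) ^ (2 * a + 2) =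
        (w - 1) ^ (2 * a + 2) * ((2 : ℂ) ^ (2 * a + 2) * (τ : ℂ) ^ (2 * a + 2)) := by
      rw [← mul_pow, ← mul_pow, h7, Even.neg_pow ⟨a + 1, by ring⟩]
    have h9 : (2 * (τ : ℂ) + 1) ^ (2 * a + 2) ≠ 0 := pow_ne_zero _ hd0
    rw [mul_inv_eq_iff_eq_mul₀ h9, h8]
    have h10 : (2 : ℂ) ^ (2 * a + 2) = 2 ^ (a + 1) * 2 ^ (a + 1) := by
      rw [← pow_add]
      congr 1
      ring
    rw [h10]
    ring
  have heven : ∀ γ : SL(2, ℤ), (2 : ℤ) ∣ γ 1 0 → f ∣[k] γ = f := by
    intro γ h2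
    exact gen (H := stb k f) hT hVs hneg _ γ rfl h2
  have hzero : IsZeroAtImInfty f := by
    set g : ℍ → ℂ := fun τ => ∑' m : ℕ, b (m + 1) • Function.Periodic.qParam 1 (τ : ℂ) ^ m with hg
    have hgs : ∀ τ : ℍ, HasSum (fun m : ℕ => b (m + 1) • Function.Periodic.qParam 1 (τ : ℂ) ^ m)
        (g τ) := by
      intro τ
      refine Summable.hasSum ?_
      have h1 := (hsum τ).summable
      have h2 := (summable_nat_add_iff 1).mpr h1
      have hq : Function.Periodic.qParam 1 (τ : ℂ) ≠ 0 := Function.Periodic.qParam_ne_zero _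
      refine (h2.mul_left (Function.Periodic.qParam 1 (τ : ℂ))⁻¹).congr fun m => ?_
      simp only [smul_eq_mul]
      rw [pow_succ]
      field_simp
    have hgb := isBoundedAtImInfty_of_hasSum_qExpansion one_pos hgs
    have hfg : f = (fun τ : ℍ => Function.Periodic.qParam 1 (τ : ℂ)) * g := by
      funext τ
      have h1 := (hasSum_nat_add_iff' 1).mpr (hsum τ)
      rw [Finset.sum_range_one, hb0, zero_smul, sub_zero] at h1
      have h2 := (hgs τ).mul_left (Function.Periodic.qParam 1 (τ : ℂ))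
      refine h1.unique ?_
      refine (congrArg (fun F => HasSum F _) ?_).mp h2
      funext m
      simp only [smul_eq_mul]
      rw [pow_succ]
      ring
    rw [hfg]
    exact Filter.ZeroAtFilter.mul_boundedAtFilter (qParam_tendsto_atImInfty one_pos) hgb
  have hle : G0 2 ≤ 𝒮ℒ := by
    rintro _ ⟨γ, -, rfl⟩
    exact ⟨γ, rfl⟩
  -- the function `f | S`
  have hfS : f ∣[k] S = ((2 : ℂ) ^ (a + 1))⁻¹ • (fun τ : ℍ => FF b ((τ : ℂ) / 2)) := by
    funext τ
    rw [SlashInvariantForm.slash_S_apply]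
    have hz : (τ : ℂ) ≠ 0 := τ.ne_zero
    have him : 0 < ((τ : ℂ) / 2).im := by
      have h1 : ((τ : ℂ) / 2).im = τ.im / 2 := by
        rw [Complex.div_ofNat_im]
        rfl
      rw [h1]
      exact half_pos τ.im_pos
    have h2 := hS ((τ : ℂ) / 2) him
    have h3 : f (.mk _ τ.im_inv_neg_coe_pos) = FF b (-1 / (2 * ((τ : ℂ) / 2))) := by
      simp only [hf]
      congr 1
      rw [inv_neg]
      field_simp
    rw [h3, h2, zpow_neg, hpk, Pi.smul_apply, smul_eq_mul]
    have h5 : (τ : ℂ) ^ (2 * a + 2) ≠ 0 := pow_ne_zero _ hz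
    have h6 : (2 : ℂ) ^ (a + 1) ≠ 0 := pow_ne_zero _ two_ne_zero
    have h10 : (2 : ℂ) ^ (2 * a + 2) = 2 ^ (a + 1) * 2 ^ (a + 1) := by
      rw [← pow_add]
      congr 1
      ring
    rw [div_pow, h10]
    field_simp
  have hodd : ∀ γ : SL(2, ℤ), ¬ (2 : ℤ) ∣ γ 1 0 → f ∣[k] γ = ((2 : ℂ) ^ (a + 1))⁻¹ •
      (fun τ : ℍ => FF b (((τ : ℂ) + ((γ 1 1 : ℤ) : ℂ)) / 2)) := by
    intro γ hc
    obtain ⟨d, hd⟩ : ∃ d : ℤ, d = γ 1 1 := ⟨_, rfl⟩
    obtain ⟨g, hg⟩ : ∃ g : SL(2, ℤ), g = γ * T ^ (-d) * S⁻¹ := ⟨_, rfl⟩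
    have h1 : γ = g * S * T ^ d := by
      rw [hg, inv_mul_cancel_right, mul_assoc, ← zpow_add, neg_add_cancel, zpow_zero, mul_one]
    have h2 : (2 : ℤ) ∣ g 1 0 := by
      have hSi : S⁻¹ 0 0 = 0 ∧ S⁻¹ 1 0 = -1 := by
        rw [Matrix.SpecialLinearGroup.SL2_inv_expl]
        simp [S]
      rw [hg, mul10, hSi.1, hSi.2, mul10, mul11, T00, T10, T01, T11, ← hd]
      have h3 : γ 1 0 % 2 = 1 := by omega
      have h4 : (γ 1 0 * 1 + d * 0) * 0 + (γ 1 0 * -d + d * 1) * -1 = d * (γ 1 0 - 1) := by ring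
      rw [h4]
      exact Dvd.dvd.mul_left (by omega) _
    obtain ⟨t, ht⟩ : ∃ t : SL(2, ℤ), t = T ^ d := ⟨_, rfl⟩
    have t10 : t 1 0 = 0 := by rw [ht, T10]
    have t11 : t 1 1 = 1 := by rw [ht, T11]
    have h6 : ∀ τ : ℍ, ((t • τ : ℍ) : ℂ) = (τ : ℂ) + (d : ℂ) := by
      intro τ
      rw [ht]
      exact ModularGroup.coe_T_zpow_smul_eq τ
    have h7 : f ∣[k] γ = f ∣[k] (g * S * t) := by rw [h1, ht]
    rw [h7, SlashAction.slash_mul, SlashAction.slash_mul, heven g h2, hfS, ← hd]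
    funext τ
    rw [ModularForm.SL_smul_slash, Pi.smul_apply, Pi.smul_apply, ModularForm.SL_slash_apply]
    have h5 : UpperHalfPlane.denom t τ = 1 := by
      rw [ModularGroup.denom_apply, t10, t11]
      simp
    rw [h5, one_zpow, mul_one, h6]
  have hzero' : ∀ γ : SL(2, ℤ), IsZeroAtImInfty (f ∣[k] γ) := by
    intro γ
    by_cases hc : (2 : ℤ) ∣ γ 1 0
    · rw [heven γ hc]
      exact hzero
    · rw [hodd γ hc]
      refine Filter.ZeroAtFilter.smul _ ?_
      have h0 := isZeroAtImInfty_iff.1 hzero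
      refine isZeroAtImInfty_iff.2 fun ε hε => ?_
      obtain ⟨B, hB⟩ := h0 ε hε
      refine ⟨2 * B, fun τ hτ => ?_⟩
      have h1 : (((τ : ℂ) + ((γ 1 1 : ℤ) : ℂ)) / 2).im = τ.im / 2 := by
        rw [Complex.div_ofNat_im, Complex.add_im, Complex.intCast_im, add_zero]
        rfl
      have him : 0 < (((τ : ℂ) + ((γ 1 1 : ℤ) : ℂ)) / 2).im := by
        rw [h1]
        have := τ.im_pos
        positivity
      refine hB ⟨((τ : ℂ) + ((γ 1 1 : ℤ) : ℂ)) / 2, him⟩ ?_
      show B ≤ (((τ : ℂ) + ((γ 1 1 : ℤ) : ℂ)) / 2).im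
      rw [h1]
      linarith
  have hSL : ∀ γ ∈ Gamma0 2, f ∣[k] γ = f := by
    intro γ hγ
    rw [Gamma0_mem] at hγ
    exact heven γ ((ZMod.intCast_zmod_eq_zero_iff_dvd _ 2).1 hγ)
  rw [hk] at hSL hzero'
  refine ⟨{ toFun := f
            slash_action_eq' := ?_
            holo' := ?_
            zero_at_cusps' := ?_ }, ?_⟩
  · rintro _ ⟨γ, hγ, rfl⟩
    exact hSL γ hγ
  · rw [UpperHalfPlane.mdifferentiable_iff]
    refine (diff_FF hC).congr fun z hz => ?_
    have hz' : 0 < z.im := hz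
    change f (ofComplex z) = FF b z
    rw [ofComplex_apply_of_im_pos hz']
  · intro c hc
    have hc' : IsCusp c 𝒮ℒ := hc.mono hle
    rw [OnePoint.isZeroAt_iff_forall_SL2Z hc']
    intro γ _
    exact hzero' γ
  · intro M
    refine (ModularFormClass.qExpansion_coeff_unique (h := 1) one_pos ?_ hsum M).symm
    rw [CongruenceSubgroup.strictPeriods_Gamma0]
    exact AddSubgroup.mem_zmultiples 1

end Pool.Agent.Helper29.THN
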